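import Pool.Agent.Lib.RAG.Blue
import Pool.Agent.Lib.PN.B_GAU
import Pool.Agent.Lib.RA.T_PK

/-! A coordinate of the Gauss map. -/

open scoped Classical Topology ContDiff ComplexOrder Matrix
open Set MeasureTheory Complex Metric Filter

set_option linter.unusedVariables false

noncomputable section

namespace Pool.Agent.Lib.RAG

open Pool.Agent.Lib.SV (E nsq)
open Pool.Agent.Lib.HS32
open Pool.Agent.Lib.RA (SecO no SecK nk)
open Pool.Agent.Lib.PN (Lift gv)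

namespace GAU

variable {n : ℕ} {M : Mf n} {ι : Type} [Fintype ι] {f : M.X → ι → ℂ} {c c' : M.Ch} {z z' : E n}
  {F F' : E n → ι → ℂ} {a a' : ℂ}

/-- A lift together with its factor. -/
def LA (f : M.X → ι → ℂ) (c : M.Ch) (z : E n) (p : (E n → ι → ℂ) × ℂ) : Prop :=
  Lift M f c z p.1 ∧ p.2 ≠ 0 ∧ p.1 z = p.2 • f (c.symm z)

/-- The normalised coordinate. -/
def sec (f : M.X → ι → ℂ) (T : Fin (n + 1) → ι) : M.Fam ℂ := fun c z =>
  if h : ∃ p, LA f c z p then gv h.choose.1 z T / h.choose.2 ^ (n + 1) else 0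

theorem la_of (h : Lift M f c z F) : ∃ a, LA f c z (F, a) :=
  let ⟨a, ha, e⟩ := h.ev.self_of_nhds
  ⟨a, h, ha, e⟩

theorem key (hC : PN.St_CMP) (hf : ∀ x, f x ≠ 0) {p p' : (E n → ι → ℂ) × ℂ} (h : LA f c z p)
    (h' : LA f c' z' p') (e : c.symm z = c'.symm z') (T : Fin (n + 1) → ι) :
    gv p'.1 z' T / p'.2 ^ (n + 1) = gv p.1 z T / p.2 ^ (n + 1) * (M.J c c' (c'.symm z')).det := by
  obtain ⟨μ, -, h0, h1, h2⟩ := (hC n M ι f c c' z z' _ _ hf h.1).2 h'.1 e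
  have h3 := h1.self_of_nhds
  rw [h'.2.2, ← e, c.right_inv h.1.tgt, h.2.2, smul_smul] at h3
  have h4 := smul_left_injective ℂ (hf _) h3
  have h5 := h.2.1
  rw [h2, h4, Pi.smul_apply, smul_eq_mul, mul_pow]
  field_simp

theorem rep (hC : PN.St_CMP) (hf : ∀ x, f x ≠ 0) {p : (E n → ι → ℂ) × ℂ} (h : LA f c z p)
    (T : Fin (n + 1) → ι) : sec f T c z = gv p.1 z T / p.2 ^ (n + 1) := by
  have h0 : ∃ p, LA f c z p := ⟨p, h⟩
  rw [sec, dif_pos h0, key hC hf h h0.choose_spec rfl,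
    (mTR n M).2.2.1 c h.1.mem _ (c.map_target h.1.tgt), Matrix.det_one, mul_one]

end GAU

open GAU

theorem st_GAU (hCMP : PN.St_CMP) : St_GAU := by
  intro n M ι _ f x₀ hf him
  obtain ⟨F₀, h₀⟩ := hf.ex _ (Mf.ch_mem x₀) _ (Mf.ch_tgt x₀)
  obtain ⟨T, hT⟩ := Function.ne_iff.1 (PN.X34.gv_ne (h₀.ne hf.ne) (him _ _ _ h₀))
  refine ⟨sec f T, ⟨fun e he e' he' x hx hx' => ?_, fun x i hi e he hx => ?_⟩, ?_⟩
  · obtain ⟨F, h⟩ := hf.ex e he _ (e.map_source hx)
    obtain ⟨F', h'⟩ := hf.ex e' he' _ (e'.map_source hx')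
    obtain ⟨a, h⟩ := la_of h
    obtain ⟨a', h'⟩ := la_of h'
    rw [rep hCMP hf.ne h, rep hCMP hf.ne h',
      key hCMP hf.ne h h' (by rw [e.left_inv hx, e'.left_inv hx']), e'.left_inv hx']
  · obtain ⟨F, h⟩ := hf.ex e he _ (e.map_source hx)
    have h1 : F (e x) i ≠ 0 := by
      obtain ⟨a, -, ha, h1⟩ := la_of h
      rw [show F (e x) = _ from h1, e.left_inv hx]
      exact mul_ne_zero ha hi
    have h2 := PN.holN_apply h.hol i
    have h3 := h2.self_of_nhds.continuousAt.eventually_ne h1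
    refine RA.PK.hn_congr (f := fun w => gv F w T / F w i ^ (n + 1)) ?_ ?_
    · filter_upwards [PN.holN_apply (hCMP n M ι f e e _ (e x) F F hf.ne h).1 T, h2, h3]
        with w b1 b2 b3
      simp only [div_eq_mul_inv]
      exact b1.fun_mul ((b2.fun_pow (n + 1)).fun_inv (pow_ne_zero _ b3))
    · filter_upwards [h.near] with w hw
      obtain ⟨a, ha⟩ := la_of hw
      rw [rep hCMP hf.ne ha, show F w = _ from ha.2.2, Pi.smul_apply, smul_eq_mul, mul_pow,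
        div_div]
  · obtain ⟨a, h⟩ := la_of h₀
    rw [Mf.ev, rep hCMP hf.ne h]
    exact div_ne_zero hT (pow_ne_zero _ h.2.1)

end Pool.Agent.Lib.RAG
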