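import Pool.Agent.Lib.RAG.Blue
import Pool.Agent.Lib.RA.K_At

/-! Project ra1: the identity theorem for sections of `O(m)`. -/

open scoped Classical Topology ContDiff ComplexOrder Matrix
open Set MeasureTheory Complex Metric Filter

set_option linter.unusedVariables false

noncomputable section

namespace Pool.Agent.Lib.RAG

open Pool.Agent.Lib.SV (E nsq)
open Pool.Agent.Lib.HS32
open Pool.Agent.Lib.RA

namespace IDO

variable {n : ℕ} {M : Mf n} {ι : Type} [Fintype ι] {f : M.X → ι → ℂ} {m : ℕ} {σ : M.X → ℂ}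

theorem loc (hf : PN.PMap M f) (hs : SecO M f m σ) (x : M.X) :
    ∃ g : M.X → ℂ, HolAt M g x ∧ ∀ᶠ y in 𝓝 x, (σ y = 0 ↔ g y = 0) := by
  obtain ⟨i, hi⟩ := Function.ne_iff.1 (hf.ne x)
  obtain ⟨F, hF⟩ := hf.ex _ (Mf.ch_mem x) _ (Mf.ch_tgt x)
  have h1 : F (M.ch x x) i ≠ 0 := by
    obtain ⟨a, ha, e⟩ := hF.ev.self_of_nhds
    rw [e, Mf.ch_symm]
    exact mul_ne_zero ha hi
  have h2 : ContinuousAt (fun w => F w i) (M.ch x x) :=
    (continuous_apply i).continuousAt.comp hF.hol.self_of_nhds.continuousAt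
  refine ⟨_, hs x i hi, (KA.ev_iff (Mf.mem_ch x)).2 ?_⟩
  filter_upwards [h2.eventually_ne h1, hF.ev] with w a1 a2
  obtain ⟨a, -, e⟩ := a2
  rw [e] at a1
  rw [div_eq_zero_iff, or_iff_left (pow_ne_zero m (right_ne_zero_of_mul a1))]

end IDO

theorem st_IDO : St_IDO := by
  intro n M _ ι _ f m σ x₀ hf hs h0
  constructor
  · refine isOpen_iff_mem_nhds.2 fun x hx => ?_
    obtain ⟨g, h1, h2⟩ := IDO.loc hf hs x
    filter_upwards [h1.cont.eventually_ne fun h => hx (h2.self_of_nhds.2 h), h2] with y a1 a2 a3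
    exact a1 (a2.1 a3)
  · have hc : IsClopen {x | ∀ᶠ y in 𝓝 x, σ y = 0} := by
      refine ⟨isClosed_iff_frequently.2 fun x hx => ?_, isOpen_setOf_eventually_nhds⟩
      obtain ⟨g, h1, h2⟩ := IDO.loc hf hs x
      have h3 : ∃ᶠ y in 𝓝 x, ∀ᶠ y' in 𝓝 y, g y' = 0 :=
        (hx.and_eventually h2.eventually_nhds).mono fun y hy =>
          (Eventually.and hy.1 hy.2).mono fun y' h => h.2.1 h.1
      have h4 : ∃ᶠ w in 𝓝 (M.ch x x), g ∘ (M.ch x).symm =ᶠ[𝓝 w] 0 := by
        intro h5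
        refine h3 ((KA.ev_iff (Mf.mem_ch x)).2 ?_)
        filter_upwards [h5, (M.ch x).open_target.mem_nhds (Mf.ch_tgt x)] with w a1 a2 a3
        exact a1 ((KA.ev_iff' a2).1 a3)
      have h6 := SV.H85.eventually_zero_of_frequently (KA.at_ch h1) h4
      filter_upwards [(KA.ev_iff (p := fun y => g y = 0) (Mf.mem_ch x)).2 h6, h2] with y a1 a2
      exact a2.2 a1
    rcases isClopen_iff.1 hc with h | h
    · refine fun x => mem_closure_iff_frequently.2 fun h1 => ?_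
      have h2 : x ∈ {x | ∀ᶠ y in 𝓝 x, σ y = 0} := h1.mono fun y hy => not_not.1 hy
      rw [h] at h2
      exact h2
    · have h2 : x₀ ∈ {x | ∀ᶠ y in 𝓝 x, σ y = 0} := h ▸ mem_univ x₀
      exact (h0 (Eventually.self_of_nhds (p := fun y => σ y = 0) h2)).elim

end Pool.Agent.Lib.RAG
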