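import Pool.Agent.Lib.RAG.Blue

/-! Project ra1, coercivity: pointwise limits of bounded families of sections. -/

open scoped Classical Topology ContDiff ComplexOrder Matrix
open Set MeasureTheory Complex Metric Filter

set_option linter.unusedVariables false

noncomputable section

namespace Pool.Agent.Lib.RAG

open Pool.Agent.Lib.SV (E nsq)
open Pool.Agent.Lib.HS32

theorem st_LIM : St_LIM := by
  intro n M L Φ κ l s B hΦ hs hB
  have bd : ∀ e ∈ M.C, ∀ z ∈ e.target, ∀ b, Φ e z ≤ b → ∀ a,
      ‖s a e z‖ ≤ √(|B| * Real.exp b) := by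
    intro e he z hz b hb a
    have h1 : normSq (s a e z) * Real.exp (-Φ e z) ≤ B :=
      (hΦ.nr_rep (hs a).toSecC e he z hz).symm.trans_le (hB a (e.symm z))
    rw [Real.exp_neg, mul_inv_le_iff₀ (Real.exp_pos _), Complex.normSq_eq_norm_sq] at h1
    exact Real.le_sqrt_of_sq_le (h1.trans (mul_le_mul (le_abs_self B) (Real.exp_le_exp.2 hb)
      (Real.exp_pos _).le (abs_nonneg B)))
  have ex : ∀ (e : M.Ch) (z : E n), ∃ y, e ∈ M.C → z ∈ e.target →
      Tendsto (fun a => s a e z) l (𝓝 y) := by
    intro e z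
    by_cases h : e ∈ M.C ∧ z ∈ e.target
    · obtain ⟨y, -, hy⟩ := (isCompact_closedBall (0 : ℂ) (√(|B| * Real.exp (Φ e z)))
        ).ultrafilter_le_nhds (l.map fun a => s a e z) (by
          rw [Ultrafilter.coe_map, le_principal_iff, mem_map]
          exact univ_mem' fun a => mem_closedBall_zero_iff.2 (bd e h.1 z h.2 _ le_rfl a))
      exact ⟨y, fun _ _ => hy⟩
    · exact ⟨0, fun a b => absurd ⟨a, b⟩ h⟩
  choose t ht using ex
  have hol : ∀ e ∈ M.C, DifferentiableOn ℂ (t e) e.target := fun e he =>
    (SV.H85.differentiableOn_of_tendsto (l := (l : Filter κ)) (f := fun a => s a e) e.open_target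
      (Eventually.of_forall fun a z hz => ((hs a).hol e he z hz).differentiableWithinAt)
      (fun x hx => ⟨√(|B| * Real.exp (Φ e x + 1)), {z | z ∈ e.target ∧ Φ e z < Φ e x + 1},
        (e.open_target.eventually_mem hx).and
          ((hΦ.sm e he x hx).continuousAt.eventually (gt_mem_nhds (lt_add_one _))),
        Eventually.of_forall fun a z hz => bd e he z hz.1 _ hz.2.le a⟩)
      fun z hz => ht e z he hz).1
  refine ⟨t, ⟨⟨fun e he z hz => ?_, fun e he e' he' x hx hx' => ?_⟩, fun e he z hz =>
    (hol e he).differentiableAt (e.open_target.mem_nhds hz)⟩, fun e he z hz => ht e z he hz⟩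
  · exact ((SV.H85.contDiffOn_top e.open_target (hol e he)).contDiffAt
      (e.open_target.mem_nhds hz)).restrict_scalars ℝ
  · refine tendsto_nhds_unique (ht e' _ he' (e'.map_source hx'))
      (((ht e _ he (e.map_source hx)).mul_const (L.c e e' x)).congr fun a => ?_)
    exact ((hs a).cmp e he e' he' x hx hx').symm

end Pool.Agent.Lib.RAG
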