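import Pool.Agent.Lib.RAG.Blue

/-! Project ra1: the bundle `O(1)` of a map to a projective space. -/

open scoped Classical Topology ContDiff ComplexOrder Matrix
open Set MeasureTheory Complex Metric Filter

set_option linter.unusedVariables false

noncomputable section

namespace Pool.Agent.Lib.RAG

open Pool.Agent.Lib.SV (E nsq)
open Pool.Agent.Lib.HS32 Pool.Agent.Lib.HS32.Mf Pool.Agent.Lib.PN
open Pool.Agent.Lib.RA (SecO no SecK nk)

namespace OM55

variable {n : ℕ} {M : Mf n} {ι : Type} [Fintype ι] {f : M.X → ι → ℂ}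

theorem holN_congr {F : Type} [NormedAddCommGroup F] [NormedSpace ℂ F] {a b : E n → F} {z : E n}
    (h : HolN a z) (e : b =ᶠ[𝓝 z] a) : HolN b z := by
  filter_upwards [h, e.eventuallyEq_nhds] with w h1 h2 using h1.congr_of_eventuallyEq h2

theorem lift0 (hf : PMap M f) {e : M.Ch} (he : e ∈ M.C) {z : E n} (hz : z ∈ e.target) {i : ι}
    (hi : f (e.symm z) i ≠ 0) :
    Lift M f e z fun w => (f (e.symm w) i)⁻¹ • f (e.symm w) := by
  obtain ⟨F, hF⟩ := hf.ex e he z hz
  have h0 : F z i ≠ 0 := by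
    obtain ⟨a, ha, h⟩ := hF.ev.self_of_nhds
    rw [h]
    exact mul_ne_zero ha hi
  have h1 : ∀ᶠ w in 𝓝 z, F w i ≠ 0 :=
    (holN_apply hF.hol i).self_of_nhds.continuousAt.eventually_ne h0
  refine ⟨he, hz, holN_congr (hF.norm h0).1.hol ?_, ?_⟩
  · filter_upwards [hF.ev] with w ⟨a, ha, h⟩
    rw [h, smul_smul, Pi.smul_apply, smul_eq_mul, mul_inv, mul_comm a⁻¹, mul_assoc,
      inv_mul_cancel₀ ha, mul_one]
  · filter_upwards [hF.ev, h1] with w ⟨a, ha, h⟩ h2
    refine ⟨_, inv_ne_zero fun h3 => h2 ?_, rfl⟩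
    rw [h, Pi.smul_apply, h3, smul_zero]

theorem ratio (hf : PMap M f) {e : M.Ch} (he : e ∈ M.C) {z : E n} (hz : z ∈ e.target) {i : ι}
    (hi : f (e.symm z) i ≠ 0) (l : ι) :
    HolN (fun w => f (e.symm w) l / f (e.symm w) i) z := by
  have := holN_apply (lift0 hf he hz hi).hol l
  simpa only [Pi.smul_apply, smul_eq_mul, div_eq_inv_mul] using this

theorem nsq_smul (c : ℂ) (v : ι → ℂ) : nsq (c • v) = normSq c * nsq v := by
  simp only [nsq, Pi.smul_apply, smul_eq_mul, map_mul, Finset.mul_sum]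

theorem nsq_pos {v : ι → ℂ} (h : v ≠ 0) : 0 < nsq v := by
  obtain ⟨i, hi⟩ := Function.ne_iff.1 h
  exact Finset.sum_pos' (fun j _ => normSq_nonneg _) ⟨i, Finset.mem_univ _, normSq_pos.2 hi⟩

theorem ex {t : ℝ} (h : 0 < t) (m : ℕ) : Real.exp (-((m : ℝ) * Real.log t)) = (t ^ m)⁻¹ := by
  rw [Real.exp_neg, ← Real.log_pow, Real.exp_log (pow_pos h m)]

theorem cdh {g : E n → ℂ} {z : E n} (h : HolN g z) : ContDiffAt ℝ ∞ g z :=
  ((mHOL n g z).2.2 h).1

end OM55

open OM55

theorem st_OM (hFS : PN.St_FS) : St_OM := by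
  intro n M ι _ f hf hA
  obtain ⟨u, hu⟩ : ∃ u : M.Ch → M.X → ℂ, ∀ e ∈ M.C, ∃ i, (u e = fun x => f x i) ∧
      ∀ x ∈ e.source, f x i ≠ 0 :=
    ⟨fun e x => if he : e ∈ M.C then f x (hA e he).choose else 1, fun e he =>
      ⟨_, funext fun x => dif_pos he, (hA e he).choose_spec⟩⟩
  have u0 : ∀ e ∈ M.C, ∀ x ∈ e.source, u e x ≠ 0 := fun e he x hx => by
    obtain ⟨i, h1, h2⟩ := hu e he
    rw [h1]
    exact h2 x hx
  have ur : ∀ e ∈ M.C, ∀ z ∈ e.target, ∀ l,
      HolN (fun w => f (e.symm w) l / u e (e.symm w)) z := fun e he z hz l => by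
    obtain ⟨i, h1, h2⟩ := hu e he
    rw [h1]
    exact ratio hf he hz (h2 _ (e.map_target hz)) l
  have ul : ∀ e ∈ M.C, ∀ z ∈ e.target,
      Lift M f e z fun w => (u e (e.symm w))⁻¹ • f (e.symm w) := fun e he z hz => by
    obtain ⟨i, h1, h2⟩ := hu e he
    rw [h1]
    exact lift0 hf he hz (h2 _ (e.map_target hz))
  let L : M.Co := ⟨fun e e' x => u e x / u e' x, fun e he e' he' x hx hx' => by
      obtain ⟨i, h1, -⟩ := hu e he
      rw [h1]
      exact ur e' he' _ (e'.map_source hx') i,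
    fun e he e' he' x hx hx' => div_ne_zero (u0 e he x hx) (u0 e' he' x hx'),
    fun e he e' he' x hx hx' e'' he'' hx'' => by
      have := u0 e' he' x hx'
      field_simp⟩
  let Φ : M.Fam ℝ := fun e z => Real.log (nsq ((u e (e.symm z))⁻¹ • f (e.symm z)))
  have hp : ∀ e ∈ M.C, ∀ x ∈ e.source, 0 < nsq ((u e x)⁻¹ • f x) := fun e he x hx =>
    nsq_pos (smul_ne_zero (inv_ne_zero (u0 e he x hx)) (hf.ne x))
  have hW : M.WtC L Φ := by
    refine ⟨fun e he z hz => ContDiffAt.log ?_ (hp e he _ (e.map_target hz)).ne',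
      fun e he e' he' x hx hx' => ?_⟩
    · exact ContDiffAt.sum fun l _ => cd_normSq (cdh (holN_apply (ul e he z hz).hol l))
    · simp only [Φ, L, e.left_inv hx, e'.left_inv hx']
      rw [← Real.log_mul (hp e he x hx).ne'
        (normSq_pos.2 (div_ne_zero (u0 e he x hx) (u0 e' he' x hx'))).ne', mul_comm, ← nsq_smul,
        smul_smul]
      have := u0 e he x hx
      congr 3
      field_simp
  have hexp : ∀ (m : ℕ) x, Real.exp (-((m : ℝ) * M.ev Φ x)) =
      normSq (u (M.ch x) x) ^ m / nsq (f x) ^ m := fun m x => by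
    simp only [Mf.ev, Φ, ch_symm]
    rw [ex (hp _ (ch_mem x) x (mem_ch x)), nsq_smul, map_inv₀, mul_pow, mul_inv, inv_pow, inv_inv,
      div_eq_mul_inv]
  have nr : ∀ (m : ℕ) s x, M.nrC ((m : ℝ) • Φ) s x =
      normSq (M.ev s x * u (M.ch x) x ^ m) / nsq (f x) ^ m := fun m s x => by
    have : M.ev ((m : ℝ) • Φ) x = (m : ℝ) * M.ev Φ x := rfl
    rw [nrC, this, hexp, map_mul, map_pow, mul_div_assoc]
  refine ⟨L, Φ, hW, fun e he z hz => ((hFS n M ι f hf).2 e z _ (ul e he z hz)).symm,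
    fun m => ⟨fun i => ?_, fun s hs => ?_, fun s φ hs hφ => ?_⟩⟩
  · have h1 : M.All fun e z => HolN (fun w => (f (e.symm w) i / u e (e.symm w)) ^ m) z :=
      fun e he z hz => (ur e he z hz i).mono fun w h => h.pow m
    refine ⟨fun e w => (f (e.symm w) i / u e (e.symm w)) ^ m,
      ⟨⟨fun e he z hz => cdh (h1 e he z hz), fun e he e' he' x hx hx' => ?_⟩,
        fun e he z hz => (h1 e he z hz).self_of_nhds⟩, fun x => ?_⟩
    · simp only [Co.pw, L, e.left_inv hx, e'.left_inv hx', ← mul_pow]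
      have := u0 e he x hx
      congr 1
      field_simp
    · rw [nr, no]
      simp only [Mf.ev, ch_symm, ← mul_pow, div_mul_cancel₀ _ (u0 _ (ch_mem x) x (mem_ch x))]
  · refine ⟨fun x => M.ev s x * u (M.ch x) x ^ m, fun x i hi e he hx => ?_,
      fun x => (nr m s x).symm⟩
    obtain ⟨l, h1, -⟩ := hu e he
    have h2 := ratio hf he (e.map_source hx) (i := i) (by rwa [e.left_inv hx]) l
    have h3 : HolN (fun w => s e w * (f (e.symm w) l / f (e.symm w) i) ^ m) (e x) := by
      filter_upwards [hs.holN e he _ (e.map_source hx), h2] with w a b using a.mul (b.pow m)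
    refine holN_congr h3 ?_
    filter_upwards [e.open_target.mem_nhds (e.map_source hx)] with w hw
    have h4 := hs.cmp e he _ (ch_mem _) _ (e.map_target hw) (mem_ch _)
    have h5 := u0 _ (ch_mem (e.symm w)) _ (mem_ch _)
    simp only [Co.pw, L, e.right_inv hw, h1] at h4
    simp only [Function.comp_apply, Mf.ev, h4, div_pow]
    field_simp
  · have h1 : M.All fun e z => HolN (fun w => s e w / u e (e.symm w) ^ m) z :=
      allOn_of_source fun e he x hx => by
        obtain ⟨i, h1, h2⟩ := hu e he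
        rw [h1]
        exact hs.hol x i (h2 x hx) e he hx
    refine ⟨fun e w => s e w / u e (e.symm w) ^ m,
      ⟨⟨fun e he z hz => cdh (h1 e he z hz), fun e he e' he' x hx hx' => ?_⟩,
        fun e he z hz => (h1 e he z hz).self_of_nhds⟩,
      ⟨fun e he z hz => (hφ.sm e he z hz).add ((hW.pw m).1.sm e he z hz),
        fun e he e' he' x hx hx' => ?_⟩, fun x => ?_⟩
    · simp only [Co.pw, Co.tw, L, e.left_inv hx, e'.left_inv hx', hs.cmp e he e' he' x hx hx',
        div_pow]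
      have := u0 e he x hx
      field_simp
    · have a := hφ.cmp e he e' he' x hx hx'
      have b := (hW.pw m).1.cmp e he e' he' x hx hx'
      have c := ((mTR n M).2.1 e he e' he' x hx hx').2.1
      have d := (L.pw m).ne e he e' he' x hx hx'
      beta_reduce at a b d
      simp only [Pi.add_apply, Co.tw, pow_one, map_mul]
      rw [a, b, Real.log_mul (normSq_pos.2 c).ne' (normSq_pos.2 d).ne']
      ring
    · have a : M.ev (φ + (m : ℝ) • Φ) x = M.ev φ x + (m : ℝ) * M.ev Φ x := rfl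
      have b := (normSq_pos.2 (u0 _ (ch_mem x) x (mem_ch x))).ne'
      rw [nrC, a, neg_add, Real.exp_add, hexp, nk]
      simp only [Mf.ev, ch_symm, map_div₀, map_pow]
      field_simp

end Pool.Agent.Lib.RAG
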