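import Pool.Agent.Lib.RAG.Blue
import Pool.Agent.Lib.HS.B_PEAK1
import Pool.Agent.Lib.HS32.MAll

/-! Project ra1: the sub-mean value inequality for sections. -/

open scoped Classical Topology ContDiff ComplexOrder Matrix ENNReal
open Set MeasureTheory Complex Metric Filter

noncomputable section

namespace Pool.Agent.Lib.RAG

open Pool.Agent.Lib.SV (E nsq)
open Pool.Agent.Lib.HS32

theorem st_SMV : St_SMV := by
  intro n M _ G L Φ e c R hG hΦ he hcb
  obtain ⟨D, hD, hD'⟩ := (mBD n M G hG).2.2.1 e he _ (isCompact_closedBall _ _) hcb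
  obtain ⟨-, hfin, -, -, hint, hch, -⟩ := mMU n M G hG
  obtain ⟨U, hU⟩ := (isCompact_closedBall c (2 * R)).exists_bound_of_continuousOn
    (f := Φ e) fun z hz => (hΦ.sm e he z (hcb hz)).continuousAt.continuousWithinAt
  set V := (volume (ball (0 : E n) 1)).toReal with hV
  have hV0 : 0 < V := ENNReal.toReal_pos (measure_ball_pos _ _ one_pos).ne' measure_ball_lt_top.ne
  refine ⟨D * Real.exp (2 * U) / V, by positivity, fun s w A a t hs hw hA ht htR z hz ha => ?_⟩
  have hΨ := (hΦ.addF hw).1
  obtain ⟨Ψ, hE⟩ : ∃ Ψ : M.Fam ℝ, Ψ = Φ + fun (e : M.Ch) z => w (e.symm z) := ⟨_, rfl⟩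
  rw [← hE] at hΨ hA
  have hnn : ∀ x, 0 ≤ M.nrC Ψ s x := Mf.nrC_nonneg _ _
  have hA0 : 0 ≤ A := (integral_nonneg hnn).trans hA
  have hsub : ball z t ⊆ closedBall c (2 * R) := fun y hy => by
    have h1 := mem_ball.1 hy
    have h2 := mem_ball.1 hz
    have h3 := dist_triangle y z c
    exact mem_closedBall.2 (by linarith)
  have hz' := hsub (mem_ball_self ht)
  have h4 := HS.P55.low (f := s e) (A := A) ht (κ := D⁻¹ * Real.exp (-(U + a)))
    (by positivity) hA0
    (fun y hy => (hs.hol e he y (hcb (hsub hy))).differentiableWithinAt)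
    (g := fun y => ENNReal.ofReal (G e y).det.re *
      ENNReal.ofReal (M.nrC Ψ s (e.symm y)))
    (fun y hy => by
      obtain ⟨-, -, d1, -⟩ := hD' y (hsub hy)
      have d0 : 0 < (G e y).det.re := lt_of_lt_of_le (by positivity) d1
      rw [← ENNReal.ofReal_mul d0.le, hΨ.nr_rep hs.toSecC e he y (hcb (hsub hy))]
      refine ENNReal.ofReal_le_ofReal ?_
      have e2 : Real.exp (-(U + a)) ≤ Real.exp (-(Φ e y + w (e.symm y))) := by
        refine Real.exp_le_exp.2 ?_
        have h1 := le_of_abs_le (hU y (hsub hy))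
        have h2 := ha y hy
        linarith
      have := normSq_nonneg (s e y)
      calc _ ≤ (G e y).det.re * Real.exp (-(Φ e y + w (e.symm y))) * normSq (s e y) := by gcongr
        _ = _ := by simp only [hE, Pi.add_apply]; ring)
    (by
      rw [← ((hch e he _ measurableSet_ball (hsub.trans hcb)).2.1 fun x => ENNReal.ofReal
        (M.nrC Ψ s x))]
      refine (setLIntegral_le_lintegral _ _).trans ?_
      exact (ofReal_integral_eq_lintegral_ofReal (hint _ _ (hΨ.nr_sm hs.toSecC).continuous)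
        (Eventually.of_forall hnn)).ge.trans (ENNReal.ofReal_le_ofReal hA))
  rw [← hV] at h4
  rw [hΦ.nr_rep hs.toSecC e he z (hcb hz')]
  beta_reduce
  have e3 : Real.exp (-Φ e z) ≤ Real.exp U :=
    Real.exp_le_exp.2 (by have := neg_le_of_abs_le (hU z hz'); linarith)
  have n0 := normSq_nonneg (s e z)
  have e4 : Real.exp (2 * U) * Real.exp a * Real.exp (-(U + a)) = Real.exp U := by
    rw [← Real.exp_add, ← Real.exp_add]; congr 1; ring
  calc _ ≤ normSq (s e z) * Real.exp U * t ^ (2 * n) := by gcongr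
    _ = D * Real.exp (2 * U) / V * (D⁻¹ * Real.exp (-(U + a)) * normSq (s e z) *
          (t ^ (2 * n) * V)) * Real.exp a := by
        rw [← e4]; field_simp
    _ ≤ _ := by gcongr

end Pool.Agent.Lib.RAG
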