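import Pool.Agent.Lib.RAG.Blue
import Pool.Agent.Lib.RA.B_RN

/-! A coordinate ball is a tube. -/

open scoped Classical Topology ContDiff ComplexOrder Matrix
open Set MeasureTheory Complex Metric Filter

set_option linter.unusedVariables false

noncomputable section

namespace Pool.Agent.Lib.RAG

open Pool.Agent.Lib.SV (E nsq)
open Pool.Agent.Lib.HS32

theorem st_TBL : St_TBL := by
  intro n M _ T e x O hT h0 he hm hp hO
  have hO' : e.symm ⁻¹' O ∈ 𝓝 (e x) :=
    (e.continuousAt_symm (e.map_source hm)).preimage_mem_nhds (by rwa [e.left_inv hm])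
  obtain ⟨δ, d0, hb⟩ := nhds_basis_closedBall.mem_iff.1
    ((((hT.sm.at he hm).ev_det hp.det_pos.ne').and
      (e.open_target.mem_nhds (e.map_source hm))).and hO')
  obtain ⟨c, c0, hc⟩ := BBD.low (isCompact_closedBall (e x) δ) (T := T e)
    (fun z hz => hT.sm e he z (hb hz).1.2) fun z hz => by
      have := h0 e he z (hb hz).1.2
      simp only [Pi.zero_apply, sub_zero] at this
      exact this.posDef_iff_det_ne_zero.2 (hb hz).1.1
  have tr := fun e' he' y hy hy' => (mTR n M).2.1 e he e' he' y hy hy'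
  have hs : closedBall (e x) (δ / 2) ⊆ e.target := fun z hz =>
    (hb (closedBall_subset_closedBall (by linarith) hz)).1.2
  have hK : {y | y ∈ e.source ∩ e ⁻¹' ball (e x) δ ∧ ‖e y - e x‖ ≤ δ / 2} =
      e.symm '' closedBall (e x) (δ / 2) := by
    ext y
    constructor
    · rintro ⟨⟨h1, -⟩, h2⟩
      exact ⟨e y, mem_closedBall_iff_norm.2 h2, e.left_inv h1⟩
    · rintro ⟨z, hz, rfl⟩
      have h1 := e.right_inv (hs hz)
      exact ⟨⟨e.map_target (hs hz), by
        rw [mem_preimage, h1]; exact closedBall_subset_ball (by linarith) hz⟩, by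
        simp only [h1]; exact mem_closedBall_iff_norm.1 hz⟩
  have hC := (isCompact_closedBall (e x) (δ / 2)).image_of_continuousOn
    (e.continuousOn_symm.mono hs)
  rw [← hK] at hC
  have hol : ∀ e' ∈ M.C, ∀ z ∈ e'.target, e'.symm z ∈ e.source → HolN (e ∘ e'.symm) z :=
    fun e' he' z hz h => by
      have := (tr e' he' _ h (e'.map_target hz)).1
      rwa [e'.right_inv hz] at this
  refine ⟨e.source ∩ e ⁻¹' ball (e x) δ, δ / 2, c, ⟨hm, mem_ball_self d0⟩, fun y hy => ?_,
    inter_subset_left, hC, by positivity, c0, e.isOpen_inter_preimage isOpen_ball,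
    fun e' he' z hz h => (hol e' he' z hz h.1).self_of_nhds.sub_const _, hC.isClosed, h0,
    fun e' he' z hz h _ v => ?_⟩
  · have : e.symm (e y) ∈ O := (hb (ball_subset_closedBall hy.2)).2
    rwa [e.left_inv hy.1] at this
  · have h1 := hT.cmp e he e' he' _ h.1 (e'.map_target hz)
    have h2 := fderiv_sub_const (𝕜 := ℂ) (f := e ∘ e'.symm) (x := z) (e x)
    have h3 := hc _ (ball_subset_closedBall h.2) (M.J e e' (e'.symm z) *ᵥ v)
    beta_reduce at h1
    rw [← BBD.nq_conj, ← h1, Mf.J, e'.right_inv hz,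
      ← (mCHN n _ _ (hol e' he' z hz h.1)).2.2.2.2.2.1, ← h2] at h3
    exact h3

end Pool.Agent.Lib.RAG
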