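import Pool.Agent.Lib.RAG.B_COER
import Pool.Agent.Lib.RAG.B_CO0
import Pool.Agent.Lib.RAG.B_GPK
import Pool.Agent.Lib.RAG.B_CUT
import Pool.Agent.Lib.RAG.B_SEC
import Pool.Agent.Lib.RAG.B_TBL
import Pool.Agent.Lib.RAG.B_SMV
import Pool.Agent.Lib.RAG.B_LIM
import Pool.Agent.Lib.RAG.B_OM
import Pool.Agent.Lib.RAG.B_GAU
import Pool.Agent.Lib.RAG.B_IDO
import Pool.Agent.Lib.RAG.B_E1
import Pool.Agent.Lib.RA.B_MIN
import Pool.Agent.Lib.RA.B_LEV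
import Pool.Agent.Lib.KP.All
import Pool.Agent.Lib.PN.B_FS
import Pool.Agent.Lib.PN.B_LG
import Pool.Agent.Lib.PN.B_LG2
import Pool.Agent.Lib.PN.B_CMP

/-! Project ra1: coercivity with no hypothesis. -/

namespace Pool.Agent.Lib.RAG

theorem gFS : PN.St_FS := PN.st_FS PN.st_LG (PN.st_LG2 PN.st_LG) PN.st_CMP

theorem gGPK : St_GPK := st_GPK st_CUT st_SEC KP.aHOR

theorem gCO0 : St_CO0 := st_CO0 gGPK st_TBL st_SMV st_LIM

theorem gCOER : RA.St_COER :=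
  st_COER gCO0 (st_OM gFS) (st_GAU PN.st_CMP) st_IDO st_E1 (RA.st_MIN RA.st_LEV) KP.aPSI1 gFS

end Pool.Agent.Lib.RAG
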