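import Pool.Agent.Lib.RAG.Blue
import Pool.Agent.Lib.RA.K_At
import Pool.Agent.Lib.RA.B_CH2
import Pool.Agent.Lib.SV.Ext85

/-! Project ra1: extension of an isometry across a hypersurface. -/

open scoped Classical Topology ContDiff ComplexOrder Matrix
open Set MeasureTheory Complex Metric Filter

set_option linter.unusedVariables false

noncomputable section

namespace Pool.Agent.Lib.RAG

open Pool.Agent.Lib.SV (E nsq)
open Pool.Agent.Lib.HS32

namespace CLO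

variable {n r : ℕ}

theorem nq_rect (A : Matrix (Fin r) (Fin n) ℂ) (P : Mat r) (v : E n) :
    nq (Aᴴ * P * A) v = nq P (A *ᵥ v) := by
  simp only [nq, Matrix.star_mulVec, ← Matrix.mulVec_mulVec, Matrix.dotProduct_mulVec,
    Matrix.vecMul_vecMul]

/-- Real segments that miss the zeros. -/
theorem seg {δ : E n → ℂ} {B : Set (E n)} (hB : IsOpen B) (hc : Convex ℝ B)
    (hd : DifferentiableOn ℂ δ B) {a b : E n} (ha : a ∈ B) (hb : b ∈ B) (h0 : δ a ≠ 0) :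
    ∃ᶠ b' in 𝓝 b, b' ∈ B ∧ ∀ t ∈ Icc (0 : ℝ) 1, δ (a + t • (b' - a)) ≠ 0 := by
  let p : ℂ →ᵃ[ℝ] E n := AffineMap.const ℝ ℂ a +
    ((LinearMap.toSpanSingleton ℂ (E n) (b - a)).restrictScalars ℝ).toAffineMap
  have hp : ∀ t, p t = a + t • (b - a) := fun t => rfl
  have pd : Differentiable ℂ p := by
    rw [funext hp]
    fun_prop
  have hD : IsOpen (p ⁻¹' B) := hB.preimage pd.continuous
  have hg : AnalyticOnNhd ℂ (δ ∘ p) (p ⁻¹' B) :=
    (hd.comp pd.differentiableOn fun t ht => ht).analyticOnNhd hD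
  have hZ : ((δ ∘ p) ⁻¹' {0} ∩ p ⁻¹' B).Countable := by
    rcases hg.eqOn_zero_or_eventually_ne_zero_of_preconnected
      (hc.affine_preimage p).isPreconnected with h | h
    · exact absurd (h (show (0 : ℂ) ∈ p ⁻¹' B by simpa [hp] using ha)) (by simpa [hp] using h0)
    · exact (HereditarilyLindelofSpace.isLindelof _).countable_of_isDiscrete
        (isDiscrete_of_codiscreteWithin h)
  have hden := (hZ.image fun z : ℂ => z.im / z.re).dense_compl ℝ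
  have h1 : Tendsto (fun κ : ℝ => p (1 + κ * I)) (𝓝 0) (𝓝 b) := by
    have h2 : Continuous fun κ : ℝ => p (1 + κ * I) := pd.continuous.comp (by fun_prop)
    simpa [hp] using h2.tendsto 0
  refine h1.frequently (((mem_closure_iff_frequently.1 (hden 0)).and_eventually
    (h1.eventually (hB.mem_nhds hb))).mono fun κ hκ => ⟨hκ.2, fun t ht hz => ?_⟩)
  have e : a + t • (p (1 + κ * I) - a) = p (t * (1 + κ * I)) := by
    rw [hp, hp, add_sub_cancel_left, mul_smul, Complex.coe_smul]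
  have ht0 : t ≠ 0 := fun h => h0 (by simpa [h] using hz)
  refine hκ.1 ⟨t * (1 + κ * I), ⟨by rw [← hz, e]; rfl, ?_⟩, ?_⟩
  · rw [mem_preimage, ← e]
    exact hc.add_smul_sub_mem ha hκ.2 ht
  · simp [ht0]

/-- The data on a ball. -/
structure Dt (B : Set (E n)) (δ : E n → ℂ) (τ : E n → E r) (ψ : E n → ℝ) (γ : E r → ℝ)
    (d c K : ℝ) : Prop where
  op : IsOpen B
  cv : Convex ℝ B
  c0 : 0 < c
  k0 : 0 ≤ K
  hd : DifferentiableOn ℂ δ B
  up : ∀ z ∈ B, δ z ≠ 0 → HolN τ z ∧ AnalyticAt ℝ ψ z ∧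
    ∀ v, nq (hess (fun w => (ψ w : ℂ)) z) v ≤ c * (K * ‖v‖) ^ 2
  lo : ∀ t ∈ ball (0 : E r) d, AnalyticAt ℝ γ t ∧
    ∀ v, c * ‖v‖ ^ 2 ≤ nq (hess (fun w => (γ w : ℂ)) t) v

/-- The good points. -/
def Gd (B : Set (E n)) (δ : E n → ℂ) (τ : E n → E r) (ψ : E n → ℝ) (γ : E r → ℝ) (d : ℝ) :
    Set (E n) := {z | z ∈ B ∧ δ z ≠ 0 ∧ ‖τ z‖ < d ∧ ψ =ᶠ[𝓝 z] γ ∘ τ}

variable {B : Set (E n)} {δ : E n → ℂ} {τ : E n → E r} {ψ : E n → ℝ} {γ : E r → ℝ} {d c K : ℝ}

theorem Dt.opn (h : Dt B δ τ ψ γ d c K) {z : E n} (hz : z ∈ Gd B δ τ ψ γ d) :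
    Gd B δ τ ψ γ d ∈ 𝓝 z := by
  have h1 := h.op.mem_nhds hz.1
  filter_upwards [h1, (h.hd.continuousOn.continuousAt h1).eventually_ne hz.2.1,
    (h.up z hz.1 hz.2.1).1.self_of_nhds.continuousAt.norm.eventually (gt_mem_nhds hz.2.2.1),
    hz.2.2.2.eventuallyEq_nhds] with w a b c d using ⟨a, b, c, d⟩

theorem Dt.cls (h : Dt B δ τ ψ γ d c K) {z : E n} (hz : z ∈ B) (h0 : δ z ≠ 0) (h1 : ‖τ z‖ < d)
    (h2 : z ∈ closure (Gd B δ τ ψ γ d)) : z ∈ Gd B δ τ ψ γ d := by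
  obtain ⟨a1, a2, -⟩ := h.up z hz h0
  have a3 : AnalyticAt ℝ (γ ∘ τ) z :=
    (h.lo _ (mem_ball_zero_iff.2 h1)).1.comp (RA.KA.an_of_hol a1)
  obtain ⟨ε, hε, a4⟩ := Metric.eventually_nhds_iff_ball.1
    (a2.eventually_analyticAt.and a3.eventually_analyticAt)
  obtain ⟨w, w1, w2⟩ := _root_.mem_closure_iff.1 h2 _ isOpen_ball (mem_ball_self hε)
  refine ⟨hz, h0, h1, ?_⟩
  filter_upwards [ball_mem_nhds z hε] with y hy
  exact RA.KA.eq_ball (fun w hw => (a4 w hw).1) (fun w hw => (a4 w hw).2) w1 w2.2.2.2 hy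

theorem Dt.der (h : Dt B δ τ ψ γ d c K) {z : E n} (hz : z ∈ Gd B δ τ ψ γ d) :
    ‖fderiv ℂ τ z‖ ≤ K := by
  obtain ⟨a1, a2, a3⟩ := h.up z hz.1 hz.2.1
  obtain ⟨b1, b2⟩ := h.lo _ (mem_ball_zero_iff.2 hz.2.2.1)
  refine ContinuousLinearMap.opNorm_le_bound _ h.k0 fun v => ?_
  have e : hess (fun w => (ψ w : ℂ)) z = hess ((fun w => (γ w : ℂ)) ∘ τ) z :=
    hess_congr (hz.2.2.2.mono fun w hw => congrArg Complex.ofReal hw)
  have h1 := a3 v
  rw [e, RA.BCH2.hess_comp a1 (cd_ofReal b1.contDiffAt), nq_rect, ← RA.BCH2.fderiv_mulVec] at h1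
  exact (pow_le_pow_iff_left₀ (norm_nonneg _) (mul_nonneg h.k0 (norm_nonneg _)) two_ne_zero).1
    (le_of_mul_le_mul_left ((b2 _).trans h1) h.c0)

theorem Dt.path (h : Dt B δ τ ψ γ d c K) {a b : E n} (ha : a ∈ Gd B δ τ ψ γ d) (hb : b ∈ B)
    (h0 : ∀ t ∈ Icc (0 : ℝ) 1, δ (a + t • (b - a)) ≠ 0) (h1 : ‖τ a‖ + K * ‖b - a‖ < d) :
    b ∈ Gd B δ τ ψ γ d ∧ ‖τ b - τ a‖ ≤ K * ‖b - a‖ := by
  let p : ℝ → E n := fun t => a + t • (b - a)
  have pc : Continuous p := by fun_prop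
  have pB : ∀ t ∈ Icc (0 : ℝ) 1, p t ∈ B := fun t ht => h.cv.add_smul_sub_mem ha.1 hb ht
  have hK : 0 ≤ K * ‖b - a‖ := mul_nonneg h.k0 (norm_nonneg _)
  have key : Icc (0 : ℝ) 1 ⊆
      {t | p t ∈ Gd B δ τ ψ γ d ∧ ‖τ (p t) - τ a‖ ≤ K * ‖b - a‖ * t} := by
    refine IsClosed.Icc_subset_of_forall_mem_nhdsWithin (isClosed_of_closure_subset fun t ht => ?_)
      ⟨by simpa [p] using ha, by simp [p]⟩ fun t ht => ?_
    · have ht1 : t ∈ Icc (0 : ℝ) 1 := closure_minimal inter_subset_right isClosed_Icc ht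
      have h2 := mem_closure_iff_frequently.1 ht
      have h3 : ContinuousAt (fun t => τ (p t)) t :=
        (h.up _ (pB t ht1) (h0 t ht1)).1.self_of_nhds.continuousAt.comp pc.continuousAt
      have h4 : ‖τ (p t) - τ a‖ ≤ K * ‖b - a‖ * t := by
        by_contra h5
        exact h2 (((continuousAt_const.mul continuousAt_id).eventually_lt
          (h3.sub continuousAt_const).norm (not_le.1 h5)).mono fun t' a1 a2 => a1.not_ge a2.1.2)
      refine ⟨⟨h.cls (pB t ht1) (h0 t ht1) ?_ (mem_closure_iff_frequently.2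
        (pc.continuousAt.tendsto.frequently (h2.mono fun t' a1 => a1.1.1))), h4⟩, ht1⟩
      have h5 := norm_le_norm_add_norm_sub' (τ (p t)) (τ a)
      have h6 := mul_le_of_le_one_right hK ht1.2
      linarith
    · obtain ⟨ε, hε, h2⟩ := Metric.mem_nhds_iff.1 (h.opn ht.1.1)
      filter_upwards [mem_nhdsWithin_of_mem_nhds (pc.continuousAt (ball_mem_nhds (p t) hε)),
        self_mem_nhdsWithin] with t' a1 a2
      refine ⟨h2 a1, ?_⟩
      have h3 := (convex_ball (p t) ε).norm_image_sub_le_of_norm_fderiv_le (𝕜 := ℂ)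
        (fun z hz => (h.up z (h2 hz).1 (h2 hz).2.1).1.self_of_nhds) (fun z hz => h.der (h2 hz))
        (mem_ball_self hε) a1
      have h4 : p t' - p t = (t' - t) • (b - a) := by
        simp only [p, sub_smul]
        abel
      rw [h4, norm_smul, Real.norm_of_nonneg (sub_nonneg.2 (le_of_lt a2))] at h3
      have h5 := norm_sub_le_norm_sub_add_norm_sub (τ (p t')) (τ (p t)) (τ a)
      have h6 := ht.1.2
      nlinarith
  simpa [p] using key (right_mem_Icc.2 zero_le_one)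

theorem Dt.all (h : Dt B δ τ ψ γ d c K) {a b : E n} (ha : a ∈ Gd B δ τ ψ γ d) (hb : b ∈ B)
    (h0 : δ b ≠ 0) (h1 : ‖τ a‖ + K * ‖b - a‖ < d) : b ∈ Gd B δ τ ψ γ d := by
  have h2 : ∀ᶠ b' in 𝓝 b, ‖τ a‖ + K * ‖b' - a‖ < d :=
    ContinuousAt.eventually_lt (by fun_prop) continuousAt_const h1
  have h3 := ((seg h.op h.cv h.hd ha.1 hb ha.2.1).and_eventually h2).mono
    fun b' hb' => h.path ha hb'.1.1 hb'.1.2 hb'.2
  have h4 : ‖τ b - τ a‖ ≤ K * ‖b - a‖ := by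
    by_contra h5
    exact h3 ((ContinuousAt.eventually_lt (f := fun b' => K * ‖b' - a‖) (by fun_prop)
      ((h.up b hb h0).1.self_of_nhds.continuousAt.sub continuousAt_const).norm
      (not_le.1 h5)).mono fun b' a1 a2 => a1.not_ge a2.2)
  refine h.cls hb h0 ?_ (mem_closure_iff_frequently.2 (h3.mono fun b' a1 => a1.1))
  have h5 := norm_le_norm_add_norm_sub' (τ b) (τ a)
  linarith

theorem rex {x : E n} {f : E n → ℂ} {C : ℝ} (hδ : HolN δ x) (h0 : ∃ᶠ y in 𝓝 x, δ y ≠ 0)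
    (hf : ∀ᶠ y in 𝓝 x, δ y ≠ 0 → DifferentiableAt ℂ f y ∧ ‖f y‖ ≤ C) :
    ∃ G : E n → ℂ, ∀ᶠ y in 𝓝 x, DifferentiableAt ℂ G y ∧ (δ y ≠ 0 → G y = f y) := by
  obtain ⟨R, R0, hR⟩ := Metric.eventually_nhds_iff_ball.1 (hδ.and hf)
  refine SV.H85.ext_local volume isOpen_ball (fun w hw => (hR w hw).1.differentiableWithinAt)
    (fun w hw => ((hR w hw.1).2 hw.2).1.differentiableWithinAt) ?_ (mem_ball_self R0)
    (not_eventually.2 h0)
  refine ne_top_of_le_ne_top ?_ (setLIntegral_mono (g := fun _ => ENNReal.ofReal (C ^ 2))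
    measurable_const fun w hw => ENNReal.ofReal_le_ofReal
      (pow_le_pow_left₀ (norm_nonneg _) ((hR w hw.1).2 hw.2).2 2))
  rw [setLIntegral_const]
  exact ENNReal.mul_ne_top ENNReal.ofReal_ne_top (ne_top_of_le_ne_top
    (measure_ball_lt_top (x := x) (r := R)).ne (measure_mono fun w hw => hw.1))

end CLO

open CLO

theorem st_CLO : St_CLO := by
  intro n r x δ τ ψ γ d s c L hδ hs hc h1 h2 h3
  obtain ⟨K, K1, K2⟩ : ∃ K : ℝ, 1 ≤ K ∧ L ≤ c * K ^ 2 := by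
    refine ⟨|L| / c + 1, le_add_of_nonneg_left (by positivity), ?_⟩
    have a1 : c * (|L| / c) = |L| := mul_div_cancel₀ _ hc.ne'
    have a2 : 0 ≤ |L| / c := by positivity
    nlinarith [le_abs_self L, mul_nonneg hc.le (mul_nonneg a2 a2)]
  have K0 : 0 < K := by linarith
  obtain ⟨R, R0, hR⟩ := Metric.eventually_nhds_iff_ball.1 (hδ.and (h1.and
    (ball_mem_nhds x (show 0 < (d - s) / (2 * K) from div_pos (sub_pos.2 hs) (by linarith)))))
  have hD : Dt (ball x R) δ τ ψ γ d c K := by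
    refine ⟨isOpen_ball, convex_ball _ _, hc, K0.le, fun z hz => (hR z hz).1.differentiableWithinAt,
      fun z hz h0 => ?_, h2⟩
    obtain ⟨a1, a2, a3⟩ := (hR z hz).2.1 h0
    refine ⟨a1, a2, fun v => (a3 v).trans ?_⟩
    rw [mul_pow, ← mul_assoc]
    exact mul_le_mul_of_nonneg_right K2 (sq_nonneg _)
  obtain ⟨a, ⟨a1, a2, a3⟩, a4⟩ := (h3.and_eventually (ball_mem_nhds x R0)).exists
  have hG : ∀ b ∈ ball x R, δ b ≠ 0 → b ∈ Gd (ball x R) δ τ ψ γ d := by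
    intro b hb h0
    refine hD.all ⟨a4, a1, a2.trans_lt hs, a3⟩ hb h0 ?_
    have b1 : dist a x < (d - s) / (2 * K) := (hR a a4).2.2
    have b2 : dist b x < (d - s) / (2 * K) := (hR b hb).2.2
    have b3 := dist_triangle_right b a x
    rw [dist_eq_norm b a] at b3
    rw [lt_div_iff₀ (by linarith)] at b1 b2
    nlinarith
  have hi : ∀ i, ∃ G : E n → ℂ, ∀ᶠ y in 𝓝 x, DifferentiableAt ℂ G y ∧ (δ y ≠ 0 → G y = τ y i) :=
    fun i => rex (C := d) hδ (h3.mono fun y hy => hy.1) <| by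
      filter_upwards [ball_mem_nhds x R0] with y hy h0
      exact ⟨differentiableAt_pi.1 (hD.up y hy h0).1.self_of_nhds i,
        (norm_le_pi_norm _ i).trans (hG y hy h0).2.2.1.le⟩
  choose G hG' using hi
  have h4 := eventually_all.2 hG'
  have h5 : HolN (fun y i => G i y) x := h4.mono fun y hy => differentiableAt_pi.2 fun i => (hy i).1
  have h6 : ∀ᶠ y in 𝓝 x, δ y ≠ 0 → τ y = fun i => G i y :=
    h4.mono fun y hy h0 => funext fun i => ((hy i).2 h0).symm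
  refine ⟨fun y i => G i y, h5, ?_, ?_⟩
  · by_contra h7
    refine h3 ?_
    filter_upwards [h6, continuousAt_const.eventually_lt h5.self_of_nhds.continuousAt.norm
      (not_le.1 h7)] with y b1 b2 b3
    exact b2.not_ge (b1 b3.1 ▸ b3.2.1)
  · filter_upwards [h6, ball_mem_nhds x R0] with y b1 b2 h0
    exact ⟨b1 h0, by rw [← b1 h0]; exact (hG y b2 h0).2.2.2.self_of_nhds⟩

end Pool.Agent.Lib.RAG
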