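import Pool.Agent.Lib.RAG.Blue
import Pool.Agent.Lib.KP.B_BRG
import Pool.Agent.Lib.RA.K_At

/-! Project ra1: coercivity. -/

open scoped Classical Topology ContDiff ComplexOrder Matrix
open Set MeasureTheory Complex Metric Filter

set_option linter.unusedVariables false

noncomputable section

namespace Pool.Agent.Lib.RAG

open Pool.Agent.Lib.SV (E nsq)
open Pool.Agent.Lib.HS32
open Pool.Agent.Lib.RA (SecO no SecK nk)

namespace COER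

variable {n : ℕ} {M : Mf n} {ι : Type} [Fintype ι] {f : M.X → ι → ℂ}

theorem np {v : ι → ℂ} (h : v ≠ 0) : 0 < nsq v :=
  let ⟨i, hi⟩ := Function.ne_iff.1 h
  Finset.sum_pos' (fun _ _ => normSq_nonneg _) ⟨i, Finset.mem_univ i, normSq_pos.2 hi⟩

theorem opn (h : PN.PMap M f) (i : ι) : IsOpen {x | f x i ≠ 0} :=
  isOpen_iff_mem_nhds.2 fun x hx => by
    obtain ⟨F, hF⟩ := h.ex _ (Mf.ch_mem x) _ (Mf.ch_tgt x)
    have a : F (M.ch x x) i ≠ 0 := by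
      obtain ⟨a, a0, e⟩ := hF.ev.self_of_nhds
      rw [e, Mf.ch_symm]
      exact mul_ne_zero a0 hx
    refine (RA.KA.ev_iff (p := fun y => f y i ≠ 0) (Mf.mem_ch x)).2 ?_
    filter_upwards [hF.ev, (PN.holN_apply hF.hol i).self_of_nhds.continuousAt.eventually_ne a]
      with w ⟨b, _, e⟩ h0
    rw [e] at h0
    exact right_ne_zero_of_mul h0

theorem nk_eq {φ s} {m : ℕ} (hφ : M.Wt 1 φ) (hs : SecK M f m s) {e : M.Ch} (he : e ∈ M.C) {x : M.X}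
    (hx : x ∈ e.source) :
    nk M φ f m s x = normSq (s e (e x)) * Real.exp (-φ e (e x)) / nsq (f x) ^ m := by
  have a := hs.cmp e he _ (Mf.ch_mem x) x hx (Mf.mem_ch x)
  have b := hφ.cmp e he _ (Mf.ch_mem x) x hx (Mf.mem_ch x)
  have c := normSq_pos.2 (RA.KA.det_J he (Mf.ch_mem x) hx (Mf.mem_ch x))
  beta_reduce at a b
  rw [nk, Mf.ev, Mf.ev, a, b, one_mul, neg_add, Real.exp_add, Real.exp_neg (Real.log _),
    Real.exp_log c, map_mul]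
  field_simp

theorem no_ne (h : PN.PMap M f) {m : ℕ} {σ : M.X → ℂ} {x : M.X} : no f m σ x ≠ 0 ↔ σ x ≠ 0 := by
  rw [no, div_ne_zero_iff, and_iff_left (pow_pos (np (h.ne x)) m).ne', ne_eq,
    normSq_eq_zero]

end COER

open COER in
theorem st_COER (hCO : St_CO0) (hOM : St_OM) (hGAU : St_GAU) (hIDO : St_IDO) (hE1 : St_E1)
    (hMIN : RA.St_MIN) (hPSI : KP.St_PSI1) (hFS : PN.St_FS) : RA.St_COER := by
  intro n k j p d M _ Λ g f φ μ V ρ x₀ Φ δ c O H σ ψ δ' c₁ hn hP hS hF hB hH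
  have hf := hP.map
  have hc : ∀ x, ∃ i, x ∈ {x | f x i ≠ 0} := fun x => Function.ne_iff.1 (hf.ne x)
  let M' : Mf n := KP.T6.rs M (U := fun i => {x | f x i ≠ 0}) (opn hf) hc
  have : M'.Cpt := ⟨Mf.Cpt.t2 (M := M), Mf.Cpt.cpt (M := M), Mf.Cpt.con (M := M)⟩
  have up : ∀ {e : M.Ch} {z F}, e ∈ M'.C → PN.Lift M f e z F → PN.Lift M' f e z F :=
    fun he h => ⟨he, h.tgt, h.hol, h.ev⟩
  have hf' : PN.PMap M' f := ⟨hf.ne, fun e he z hz => (hf.ex e he.1 z hz).imp fun F h => up he h⟩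
  have fo : ∀ T, M.Form T → M'.Form T := fun T k =>
    ⟨⟨fun e he => k.sm e he.1, fun e he e' he' => k.cmp e he.1 e' he'.1⟩, fun e he => k.herm e he.1⟩
  have hK0 : M'.Kae (PN.fs M f) :=
    ⟨⟨fo _ hS.kae.toClo.toForm, fun e he => hS.kae.cl e he.1⟩, fun e he => hS.kae.pos e he.1⟩
  have hw : M'.Wt 1 φ := ⟨fun e he => hS.wt.sm e he.1, fun e he e' he' => hS.wt.cmp e he.1 e' he'.1⟩
  obtain ⟨L, Ψ, o1, o2, o3⟩ := hOM n M' _ f hf' fun e he => he.2.imp fun i hi x hx => hi hx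
  have o4 : M'.All fun e z => M'.hw Ψ e z = PN.fs M f e z := fun e he z hz => by
    obtain ⟨F, h⟩ := hf.ex e he.1 z hz
    exact (o2 e he z hz).trans (((hFS n M' _ f hf').2 e z F (up he h)).trans
      ((hFS n M _ f hf).2 e z F h).symm)
  have hK : M'.Kae (M'.hw Ψ) := hK0.congr o4
  obtain ⟨s, s1, s2⟩ := hGAU n M _ f x₀ hf hP.imm
  have s1' : SecK M' f (n + 1) s :=
    ⟨fun e he e' he' => s1.cmp e he.1 e' he'.1, fun x i hi e he => s1.hol x i hi e he.1⟩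
  obtain ⟨Θ, s', s3, s4, s5⟩ : ∃ Θ s', M'.HSecC ((L.pw (n + 1)).tw 1) s' ∧
      M'.WtC ((L.pw (n + 1)).tw 1) Θ ∧ ∀ x, nk M' φ f (n + 1) s x = M'.nrC Θ s' x :=
    ⟨_, (o3 (n + 1)).2.2 s φ s1' hw⟩
  have hq : ∀ x, nk M φ f (n + 1) s x = M'.nrC Θ s' x := fun x =>
    (nk_eq hS.wt s1 (Mf.ch_mem (M := M') x).1 (Mf.mem_ch (M := M') x)).trans (s5 x)
  have qn : ∀ x, nk M φ f (n + 1) s x ≠ 0 ↔ M.ev s x ≠ 0 := fun x => by
    rw [nk, div_ne_zero_iff, and_iff_left (pow_pos (np (hf.ne x)) _).ne',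
      mul_ne_zero_iff_right (Real.exp_pos _).ne', ne_eq, normSq_eq_zero]
  obtain ⟨C₂, c2, h2⟩ := hPSI n M' _ _ s' Θ hK.toMet s3 s4
  obtain ⟨C₃, -, h3, -⟩ := (mBD n M' _ hK.toMet).1 _ s4.clo.toForm
  obtain ⟨C₁, h1⟩ := hE1 n k j M φ μ V ρ x₀ Φ δ c O H σ ψ δ' c₁ hF hB hH
  obtain ⟨CL, -, hL⟩ := hF.lip
  obtain ⟨m, t, c', C, c0, C0, t1, t2, t3⟩ := hCO n k M' (M'.hw Ψ) L Ψ (M.hw φ) ρ (RA.mu0 Φ 0) x₀
    c₁ C₁ (C₂ + C₃) (M'.nrC Θ s') hK o1 (fun _ _ _ _ => rfl)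
    (fun m => by
      obtain ⟨i, hi⟩ := hc x₀
      obtain ⟨u, u1, u2⟩ := (o3 m).1 i
      exact ⟨u, u1, Mf.nrC_ne.1 (u2 x₀ ▸ (no_ne hf).2 (pow_ne_zero m hi))⟩)
    (fo _ ((mHES n M).2.2.2.1 1 φ hS.wt).toForm) hF.z0
    (fun b ε hε => by
      obtain ⟨P, ξ, h⟩ := hMIN n k j M φ _ μ V ρ b ε hS.toPot hF hε
      refine ⟨P, fun e he => h.sm e he.1, fun e he => h.psd e he.1, fun x => ⟨h.le x, ξ x, ?_⟩⟩
      rw [h.eq x]
      exact le_add_of_nonneg_right (mul_nonneg hε.le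
        (Finset.sum_nonneg fun i _ => mul_self_nonneg _)))
    (fun x => by
      obtain ⟨a, a1, a2, -⟩ := V.cov x
      obtain ⟨e, e1, e2, e3, e4⟩ := KP.T6.restr M (U := fun i => {x | f x i ≠ 0}) (opn hf) hc
        (V.mem a) a1
      have b : ball (V.e a x) (V.ρ a) ⊆ closedBall (V.c a) (2 * V.ρ a) :=
        (ball_subset_ball' (by linarith [mem_ball.1 a2])).trans ball_subset_closedBall
      refine ⟨e, e1, e2, V.ρ a, CL, V.pos a, fun ξ z hz z' hz' => ?_⟩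
      have z1 : z ∈ ball (V.e a x) (V.ρ a) := e3 ▸ hz
      have z2 : z' ∈ ball (V.e a x) (V.ρ a) := e3 ▸ hz'
      have := hL ξ a z (b z1) z' (b z2)
      rwa [← e4] at this)
    hH.c0 h1 (s4.nr_sm s3.toSecC) (Mf.nrC_nonneg _ _) (hq x₀ ▸ (qn x₀).2 s2)
    (fun ε hε e he z hz => by
      have a := Mf.nrC_nonneg Θ s' (e.symm z)
      have b : 0 ≤ C₂ - C₂ * (ε / (M'.nrC Θ s' (e.symm z) + ε)) := sub_nonneg.2
        (mul_le_of_le_one_right c2.le ((div_le_one (by positivity)).2 (by linarith)))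
      refine (congrArg Matrix.PosSemidef ?_).mp (((h2 ε hε e he z hz).add (h3 e he z hz)).add
        (Mf.psd_rsmul (hK.pos e he z hz).posSemidef b))
      simp only [Pi.add_apply, Pi.smul_apply, Pi.zero_apply]
      module)
  obtain ⟨θ, θ1, θ2⟩ : ∃ θ : M.X → ℂ, SecO M' f m θ ∧
      ∀ x : M.X, no f m θ x = M'.nrC ((m : ℝ) • Ψ) t x := (o3 m).2.1 t t1
  have θ3 : SecO M f m θ := fun x i hi =>
    RA.KA.holAt_of (M := M) (Mf.ch_mem (M := M') x).1 (Mf.mem_ch (M := M') x)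
      (θ1 x i hi _ (Mf.ch_mem (M := M') x) (Mf.mem_ch (M := M') x))
  have θ4 : ∀ x, θ x ≠ 0 ↔ M'.ev t x ≠ 0 := fun x => by
    rw [← no_ne hf (m := m), θ2]
    exact Mf.nrC_ne
  obtain ⟨i1, i2⟩ := hIDO n M _ f m θ x₀ hf θ3 ((θ4 x₀).2 t2)
  obtain ⟨Q, Q0, hQ⟩ := (s4.nr_sm s3.toSecC).exists_bound
  have l0 := abs_nonneg (Real.log C)
  have CQ : 0 ≤ C * Q := by positivity
  refine ⟨m, θ, s, θ3, s1, i2, i1, c', C + C * Q + Q + |Real.log C| + 1, c0, by positivity,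
    fun x => ?_⟩
  obtain ⟨t4, t5⟩ := t3 x
  have q1 := (le_abs_self _).trans (hQ x)
  rw [θ2, hq]
  refine ⟨by linarith [mul_le_mul_of_nonneg_left q1 C0.le], by linarith, fun h0 => ?_⟩
  have v0 := (Mf.nrC_nonneg ((m : ℝ) • Ψ) t x).lt_of_ne' (Mf.nrC_ne.2 ((θ4 x).1 h0))
  have q0 : 0 < M'.nrC Θ s' x := (mul_pos_iff_of_pos_left C0).1 (v0.trans_le t4)
  have l1 := abs_nonneg (Real.log (M'.nrC ((m : ℝ) • Ψ) t x))
  refine ⟨fun ξ => le_trans ?_ (t5 ((θ4 x).1 h0) ξ), (qn x).1 (hq x ▸ q0.ne'), ?_⟩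
  · gcongr
    linarith
  · have a := Real.log_le_log v0 t4
    rw [Real.log_mul C0.ne' q0.ne'] at a
    nlinarith [neg_abs_le (Real.log (M'.nrC ((m : ℝ) • Ψ) t x)), le_abs_self (Real.log C),
      mul_nonneg (show 0 ≤ C + C * Q + Q + |Real.log C| by positivity) l1]

end Pool.Agent.Lib.RAG
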