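import Pool.Agent.Lib.RAG.Blue
import Pool.Agent.Lib.RA.B_CH2
import Pool.Agent.Lib.RA.K_At

/-! Project ra1: from the data for peak sections to the growth of the plurigenera. -/

open scoped Classical Topology ContDiff ComplexOrder Matrix
open Set MeasureTheory Complex Metric Filter

set_option linter.unusedVariables false

noncomputable section

namespace Pool.Agent.Lib.RAG

open Pool.Agent.Lib.SV (E nsq)
open Pool.Agent.Lib.HS32 Pool.Agent.Lib.RA

namespace G2

variable {n r : ℕ}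

/-- The trivial bundle. -/
def one (M : Mf n) : M.Co :=
  ⟨fun _ _ _ => 1, fun _ _ _ _ _ _ _ => Eventually.of_forall fun _ => differentiableAt_const _,
    fun _ _ _ _ _ _ _ => one_ne_zero, fun _ _ _ _ _ _ _ _ _ _ => (one_mul _).symm⟩

theorem le_nsq (v : E r) : ‖v‖ ^ 2 ≤ nsq v := by
  have h0 : 0 ≤ nsq v := Finset.sum_nonneg fun j _ => normSq_nonneg _
  rw [← Real.le_sqrt (norm_nonneg _) h0]
  refine (pi_norm_le_iff_of_nonneg (Real.sqrt_nonneg _)).2 fun j => ?_
  rw [Real.le_sqrt (norm_nonneg _) h0, ← normSq_eq_norm_sq]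
  exact Finset.single_le_sum (f := fun j => normSq (v j)) (fun j _ => normSq_nonneg _)
    (Finset.mem_univ j)

theorem low {T : Mat n} {J : Matrix (Fin r) (Fin n) ℂ} {c : ℝ} (hc : 0 ≤ c)
    (h : (T - (c : ℂ) • (Jᴴ * (1 : Mat r) * J)).PosSemidef) (v : E n) : c * ‖J *ᵥ v‖ ^ 2 ≤ nq T v := by
  have a := (Complex.nonneg_iff.1 (h.dotProduct_mulVec_nonneg v)).1
  have b : (star v ⬝ᵥ (Jᴴ * (1 : Mat r) * J) *ᵥ v).re = nsq (J *ᵥ v) := by
    rw [Matrix.mul_one, ← Matrix.mulVec_mulVec, Matrix.dotProduct_mulVec, ← Matrix.star_mulVec]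
    simp only [dotProduct, nsq, re_sum, Pi.star_apply]
    exact Finset.sum_congr rfl fun i _ => by simp [normSq_apply]
  rw [Matrix.sub_mulVec, dotProduct_sub, sub_re, Matrix.smul_mulVec, dotProduct_smul, smul_eq_mul,
    re_ofReal_mul, b, sub_nonneg] at a
  exact (mul_le_mul_of_nonneg_left (le_nsq _) hc).trans a

/-- The derivative of the quotients as a function of the jets. -/
def qd (p : Option (Fin r) → ℂ × (E n →L[ℂ] ℂ)) : E n →L[ℂ] E r :=
  ContinuousLinearMap.pi fun i =>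
    (p none).1⁻¹ • (p (some i)).2 - ((p (some i)).1 * ((p none).1 ^ 2)⁻¹) • (p none).2

theorem qd_cont {p : Option (Fin r) → ℂ × (E n →L[ℂ] ℂ)} (h : (p none).1 ≠ 0) :
    ContinuousAt qd p := by
  refine continuousAt_clm_apply.2 fun v => continuousAt_pi.2 fun i => ?_
  have a : ∀ o, Continuous fun p : Option (Fin r) → ℂ × (E n →L[ℂ] ℂ) => (p o).1 :=
    fun o => by fun_prop
  have b : ∀ o, Continuous fun p : Option (Fin r) → ℂ × (E n →L[ℂ] ℂ) => (p o).2 v :=
    fun o => (by fun_prop : Continuous fun p : Option (Fin r) → ℂ × (E n →L[ℂ] ℂ) =>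
      (p o).2).clm_apply continuous_const
  exact (((a none).continuousAt.inv₀ h).mul (b _).continuousAt).sub
    (((a _).continuousAt.mul (((a none).continuousAt.pow 2).inv₀ (pow_ne_zero 2 h))).mul
      (b none).continuousAt)

theorem qd_eq {t : Option (Fin r) → E n → ℂ} {z : E n} (h : ∀ o, DifferentiableAt ℂ (t o) z)
    (h0 : t none z ≠ 0) :
    fderiv ℂ (fun w i => t (some i) w / t none w) z = qd fun o => (t o z, fderiv ℂ (t o) z) := by
  refine (hasFDerivAt_pi.2 fun i => ?_).fderiv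
  have a := (h (some i)).hasFDerivAt.mul
    ((hasDerivAt_inv h0).comp_hasFDerivAt z (h none).hasFDerivAt)
  simp only [div_eq_mul_inv]
  refine a.congr_fderiv ?_
  ext1 v
  simp
  ring

theorem near (hO : IsOpen {A : E n →L[ℂ] E r | Function.Surjective A})
    {g : Option (Fin r) → E n → ℂ} {z : E n} (h : ∀ o, DifferentiableAt ℂ (g o) z)
    (h0 : g none z ≠ 0)
    (hs : Function.Surjective (fderiv ℂ (fun w i => g (some i) w / g none w) z)) :
    ∃ κ : ℝ, 0 < κ ∧ ∀ t : Option (Fin r) → E n → ℂ, (∀ o, DifferentiableAt ℂ (t o) z) →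
      (∀ o, ‖t o z - g o z‖ ≤ κ ∧ ‖fderiv ℂ (t o) z - fderiv ℂ (g o) z‖ ≤ κ) →
      t none z ≠ 0 ∧ Function.Surjective (fderiv ℂ (fun w i => t (some i) w / t none w) z) := by
  rw [qd_eq h h0] at hs
  have a : ∀ᶠ p in 𝓝 fun o => (g o z, fderiv ℂ (g o) z), Function.Surjective (qd p) :=
    (qd_cont h0).eventually (hO.mem_nhds hs)
  have b : ∀ᶠ p in 𝓝 fun o => (g o z, fderiv ℂ (g o) z), (p none).1 ≠ 0 :=
    (continuous_apply none).fst.continuousAt.eventually_ne h0
  obtain ⟨κ, k0, hk⟩ := nhds_basis_closedBall.eventually_iff.1 (a.and b)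
  refine ⟨κ, k0, fun t ht hd => ?_⟩
  have := hk (x := fun o => (t o z, fderiv ℂ (t o) z)) (by
    rw [mem_closedBall, dist_pi_le_iff k0.le]
    intro o
    rw [Prod.dist_eq, dist_eq_norm, dist_eq_norm]
    exact max_le (hd o).1 (hd o).2)
  exact ⟨this.2, by rw [qd_eq ht this.2]; exact this.1⟩

end G2

open G2 in
theorem st_G2 (hGPK : St_GPK) (hMANY : St_MANY) (hBDU : St_BDU) : RA.St_G2 := by
  intro n r m M _ G φ x U H δ c s hn hS hP
  have tub : Tub M (M.hw φ) U H δ c := ⟨hP.d0, hP.c0, hP.op, fun e he z hz hU =>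
    (KA.at_tgt he hz (hP.hol _ hU)).self_of_nhds, hP.cl, hS.psd, fun e he z hz hU _ v => by
      rw [BCH2.fderiv_mulVec]
      exact low hP.c0.le (KA.at_tgt he hz (hP.lo _ hU)) v⟩
  obtain ⟨e, he, hx⟩ := M.cov x
  obtain ⟨ρ, ρ0, hρ⟩ := nhds_basis_closedBall.mem_iff.1 (e.open_target.mem_nhds (e.map_source hx))
  obtain ⟨C, hC⟩ := hGPK n r M G _ U H δ c e x ρ hS.kae tub he hx hP.mem hP.zero ρ0
  obtain ⟨a, k, hk, hCk⟩ : ∃ a k : ℕ, m * a = k + 1 ∧ C ≤ k := by
    have := Nat.le_mul_of_pos_left (⌈C⌉₊ + 1) hP.m0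
    refine ⟨⌈C⌉₊ + 1, m * (⌈C⌉₊ + 1) - 1, by omega, (Nat.le_ceil C).trans ?_⟩
    exact Nat.cast_le.2 (by omega)
  have w0 : M.WtC ((one M).tw k) ((k : ℝ) • φ) := ⟨fun e he z hz =>
    (hS.wt.sm e he z hz).const_smul (k : ℝ), fun e he e' he' y hy hy' => by
      have := hS.wt.cmp e he e' he' y hy hy'
      simp only [Pi.smul_apply, smul_eq_mul, Mf.Co.tw, one, mul_one, map_pow, Real.log_pow,
        one_mul] at this ⊢
      rw [this]; ring⟩
  obtain ⟨w1, w2⟩ := w0.tw hS.kae.toMet 1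
  generalize (((1 : ℕ) : ℝ) • (fun e z => Real.log (G e z).det.re) + (k : ℝ) • φ : M.Fam ℝ) = Φ
    at w1 w2
  have hL : ∀ e e' y, (((one M).tw k).tw 1).c e e' y = (M.J e e' y).det ^ (k + 1) :=
    fun e e' y => by simp only [Mf.Co.tw, one]; ring
  generalize ((one M).tw k).tw 1 = L at w1 hL
  have le : M.Le (C • M.hw φ) (M.hw Φ + M.ric G) := fun e he z hz => by
    have p := hS.psd e he z hz
    have q := w2 e he z hz
    simp only [Pi.zero_apply, sub_zero, Pi.add_apply, Pi.smul_apply, Nat.cast_one,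
      one_smul] at p q ⊢
    rw [q, Mf.hw_smul _ (hS.wt.sm e he z hz), sub_add_cancel, ← sub_smul]
    exact p.smul (sub_nonneg.2 hCk)
  obtain ⟨f, f0, f1, fh⟩ : ∃ f : Option (Fin r) → M.X → ℂ, (∀ y, f none y = 1) ∧
      (∀ i y, f (some i) y = H y i) ∧ ∀ o, HolU M U (f o) :=
    ⟨fun o y => o.elim 1 (H y), fun _ => rfl, fun _ _ => rfl, fun o e he z hz hU => by
      cases o with
      | none => exact differentiableAt_const _
      | some i => exact differentiableAt_pi.1 (tub.hol e he z hz hU) i⟩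
  have sec : ∀ o, SecU M L U fun e z => f o (e.symm z) * s e z ^ a := fun o =>
    ⟨fun e he z hz hU => (fh o e he z hz hU).mul
      ((KA.at_tgt he hz (hP.sec _ hU)).1.self_of_nhds.pow a), fun e he e' he' y hy hy' hU => by
      have := hP.cmp e he e' he' y hy hy' hU
      rw [e.left_inv hy, e'.left_inv hy', hL, this, mul_pow, ← pow_mul, hk, mul_assoc]⟩
  obtain ⟨B', hB'⟩ := (isCompact_closedBall (e x) ρ).bddAbove_image (f := Φ e) fun z hz =>
    (w1.sm e he z (hρ hz)).continuousAt.continuousWithinAt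
  have ex : e.symm (e x) ∈ U := by rw [e.left_inv hx]; exact hP.mem
  have key : ∀ o, ∀ κ : ℝ, 0 < κ → ∃ t, M.HSecC L t ∧
      ‖t e (e x) - f o (e.symm (e x)) * s e (e x) ^ a‖ ≤ κ ∧
      ‖fderiv ℂ (t e) (e x) - fderiv ℂ (fun z => f o (e.symm z) * s e z ^ a) (e x)‖ ≤ κ :=
    fun o κ k0 => by
      obtain ⟨B, B0, hB⟩ := hBDU.1 n M L Φ U _ _ w1 hP.op (sec o) hP.cl.isCompact fun _ h => h.1
      obtain ⟨A, hA⟩ := hC (max B B') (le_max_of_le_left B0)
      obtain ⟨t, t1, -, t2⟩ := hA κ k0 L Φ _ w1 le (sec o)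
        (fun e he z hz h1 h2 => le_max_of_le_left (hB e he z hz ⟨h1, h2⟩))
        fun z hz _ => le_max_of_le_right (hB' (mem_image_of_mem _ (ball_subset_closedBall hz)))
      exact ⟨t, t1, t2⟩
  obtain ⟨s1, s2⟩ := hP.sec x hP.mem e he hx
  obtain ⟨κ, k0, hκ⟩ := near (hBDU.2 n r) (g := fun o z => f o (e.symm z) * s e z ^ a) (z := e x)
    (fun o => (sec o).hol e he _ (e.map_source hx) ex) (by
      rw [f0, one_mul]; exact pow_ne_zero a s2) (by
      have : (fun w i => f (some i) (e.symm w) * s e w ^ a / (f none (e.symm w) * s e w ^ a))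
          =ᶠ[𝓝 (e x)] H ∘ e.symm := by
        filter_upwards [s1.self_of_nhds.continuousAt.eventually_ne s2] with w hw
        funext i
        rw [f0, f1, one_mul, mul_div_cancel_right₀ _ (pow_ne_zero a hw)]
        rfl
      rw [this.fderiv_eq]
      exact hP.sub e he hx)
  choose t t1 t2 using fun o => key o κ k0
  have hs : ∀ o, M.HSec (k + 1) (t o) := fun o =>
    ⟨⟨(t1 o).sm, fun e he e' he' y hy hy' =>
      ((t1 o).cmp e he e' he' y hy hy').trans (by rw [hL])⟩,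
      (t1 o).hol⟩
  obtain ⟨u1, u2⟩ := hκ (fun o => t o e) (fun o => (t1 o).hol e he _ (e.map_source hx)) t2
  exact hMANY n r (k + 1) M (t none) (fun i => t (some i)) e (e x) k.succ_pos (hs _)
    (fun i => hs _) he (e.map_source hx) u1 u2

end Pool.Agent.Lib.RAG
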