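import Pool.Agent.Lib.KP.Blue
import Pool.Agent.Lib.KP.Kit
import Pool.Agent.Lib.RA.Blue0

/-! Project ra1, coercivity and the last step: definitions and statements. -/

open scoped Classical Topology ContDiff ComplexOrder Matrix
open Set MeasureTheory Complex Metric Filter

set_option linter.unusedVariables false

noncomputable section

namespace Pool.Agent.Lib.RAG

open Pool.Agent.Lib.SV (E nsq)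
open Pool.Agent.Lib.HS32
open Pool.Agent.Lib.RA (SecO no SecK nk)

section defs

variable {n r k : ℕ} {ι : Type}

/-- The map `f` is holomorphic at the points of `U`. -/
def HolU (M : Mf n) {F : Type} [NormedAddCommGroup F] [NormedSpace ℂ F] (U : Set M.X)
    (f : M.X → F) : Prop :=
  M.All fun e z => e.symm z ∈ U → DifferentiableAt ℂ (f ∘ e.symm) z

/-- A holomorphic section of `L` over `U`. -/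
structure SecU (M : Mf n) (L : M.Co) (U : Set M.X) (g : M.Fam ℂ) : Prop where
  hol : M.All fun e z => e.symm z ∈ U → DifferentiableAt ℂ (g e) z
  cmp : M.Ov fun e e' x => x ∈ U → g e' (e' x) = g e (e x) * L.c e e' x

/-- A holomorphic map `H` on `U`, proper over the closed ball of radius `s`, dominated by `T`. -/
structure Tub (M : Mf n) (T : M.Fam (Mat n)) (U : Set M.X) (H : M.X → E r) (s c : ℝ) : Prop where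
  s0 : 0 < s
  c0 : 0 < c
  opn : IsOpen U
  hol : HolU M U H
  cl : IsClosed {x | x ∈ U ∧ ‖H x‖ ≤ s}
  psd : M.Le 0 T
  low : M.All fun e z => e.symm z ∈ U → ‖H (e.symm z)‖ ≤ s →
    ∀ v, c * ‖fderiv ℂ (H ∘ e.symm) z v‖ ^ 2 ≤ nq (T e z) v

/-- The regularised minima exist and are smooth and `η`-plurisubharmonic. -/
def Mini (M : Mf n) (η : M.Fam (Mat n)) (ρ : (Fin k → ℝ) → M.X → ℝ) : Prop :=
  ∀ (b : Fin k → ℝ) (ε : ℝ), 0 < ε → ∃ P : M.X → ℝ, M.Sm P ∧ M.Le 0 (η + M.hs P) ∧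
    ∀ x, (∀ ξ, P x ≤ ρ ξ x - b ⬝ᵥ ξ + ε * (ξ ⬝ᵥ ξ)) ∧ ∃ ξ, ρ ξ x - b ⬝ᵥ ξ ≤ P x

/-- The Lipschitz constants grow at most exponentially. -/
def Lip (M : Mf n) (ρ : (Fin k → ℝ) → M.X → ℝ) : Prop :=
  ∀ x, ∃ e ∈ M.C, x ∈ e.source ∧ ∃ R C : ℝ, 0 < R ∧ ∀ ξ, ∀ z ∈ ball (e x) R, ∀ z' ∈ ball (e x) R,
    |ρ ξ (e.symm z) - ρ ξ (e.symm z')| ≤ C * Real.exp (C * ‖ξ‖) * ‖z - z'‖

end defs

/-! ### The rows -/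

/-- The weights with a logarithmic pole. -/
def St_CUT : Prop := ∀ (n r : ℕ) (M : Mf n) (T : M.Fam (Mat n)) (U : Set M.X) (H : M.X → E r)
  (s c : ℝ), Tub M T U H s c → ∃ C : ℝ, 0 ≤ C ∧ ∀ δ ∈ Ioc (0 : ℝ) 1, ∃ l : M.X → ℝ, M.Sm l ∧
    M.Le 0 (C • T + M.hs l) ∧ (∀ x, l x ≤ C) ∧
    (∀ x ∈ U, ‖H x‖ < s / 4 → l x = Real.log (nsq (H x) + δ)) ∧
    ∀ x ∈ U, s / 4 ≤ ‖H x‖ → -C ≤ l x

/-- The section times a cut-off function. -/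
def St_SEC : Prop := ∀ (n r : ℕ) (M : Mf n) (T : M.Fam (Mat n)) (U : Set M.X) (H : M.X → E r)
  (s c : ℝ), Tub M T U H s c → ∃ C : ℝ, 0 ≤ C ∧ ∀ (L : M.Co) (Φ : M.Fam ℝ) (g : M.Fam ℂ) (B : ℝ),
    0 ≤ B → SecU M L U g →
    (M.All fun e z => e.symm z ∈ U → ‖H (e.symm z)‖ ≤ s →
      normSq (g e z) * Real.exp (-Φ e z) ≤ B) →
    ∃ σ, M.SecC L σ ∧ (M.All fun e z => e.symm z ∈ U → ‖H (e.symm z)‖ < s / 4 → σ e z = g e z) ∧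
      (M.All fun e z => normSq (σ e z) * Real.exp (-Φ e z) ≤ B) ∧
      M.DbC Φ σ ({x | x ∈ U ∧ s / 4 ≤ ‖H x‖ ∧ ‖H x‖ ≤ s}.indicator fun _ => C * B) T

/-- Peak sections with prescribed jet of order one. -/
def St_GPK : Prop := ∀ (n r : ℕ) (M : Mf n) [M.Cpt] (G T : M.Fam (Mat n)) (U : Set M.X)
  (H : M.X → E r) (s c : ℝ) (e : M.Ch) (x : M.X) (ρ : ℝ), M.Kae G → Tub M T U H s c → e ∈ M.C →
  x ∈ e.source → x ∈ U → H x = 0 → 0 < ρ → ∃ C : ℝ, ∀ B : ℝ, 0 ≤ B → ∃ A : ℝ, ∀ κ : ℝ, 0 < κ →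
    ∀ (L : M.Co) (Φ : M.Fam ℝ) (g : M.Fam ℂ), M.WtC L Φ → M.Le (C • T) (M.hw Φ + M.ric G) →
      SecU M L U g →
      (M.All fun e z => e.symm z ∈ U → ‖H (e.symm z)‖ ≤ s →
        normSq (g e z) * Real.exp (-Φ e z) ≤ B) →
      (∀ z ∈ ball (e x) ρ, z ∈ e.target → Φ e z ≤ B) →
      ∃ t, M.HSecC L t ∧ ∫ y, M.nrC Φ t y ∂M.mu G ≤ A ∧ ‖t e (e x) - g e (e x)‖ ≤ κ ∧
        ‖fderiv ℂ (t e) (e x) - fderiv ℂ (g e) (e x)‖ ≤ κ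

/-- A section over `U` is bounded on compact subsets; surjectivity is an open condition. -/
def St_BDU : Prop :=
  (∀ (n : ℕ) (M : Mf n) (L : M.Co) (Φ : M.Fam ℝ) (U K : Set M.X) (g : M.Fam ℂ), M.WtC L Φ →
    IsOpen U → SecU M L U g → IsCompact K → K ⊆ U → ∃ B : ℝ, 0 ≤ B ∧
      M.All fun e z => e.symm z ∈ K → normSq (g e z) * Real.exp (-Φ e z) ≤ B) ∧
  ∀ n r : ℕ, IsOpen {A : E n →L[ℂ] E r | Function.Surjective A}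

/-- A coordinate ball is a tube. -/
def St_TBL : Prop := ∀ (n : ℕ) (M : Mf n) [M.Cpt] (T : M.Fam (Mat n)) (e : M.Ch) (x : M.X)
  (O : Set M.X), M.Form T → M.Le 0 T → e ∈ M.C → x ∈ e.source → (T e (e x)).PosDef → O ∈ 𝓝 x →
  ∃ (U : Set M.X) (s c : ℝ), x ∈ U ∧ U ⊆ O ∧ U ⊆ e.source ∧
    IsCompact {y | y ∈ U ∧ ‖e y - e x‖ ≤ s} ∧ Tub M T U (fun y => e y - e x) s c

/-- Sections with independent quotients. -/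
def St_MANY : Prop := ∀ (n r m : ℕ) (M : Mf n) (s₀ : M.Fam ℂ) (s : Fin r → M.Fam ℂ) (e : M.Ch)
  (z : E n), 0 < m → M.HSec m s₀ → (∀ i, M.HSec m (s i)) → e ∈ M.C → z ∈ e.target → s₀ e z ≠ 0 →
  Function.Surjective (fderiv ℂ (fun w i => s i e w / s₀ e w) z) → M.WGrow r

/-- Extension of an isometry across a hypersurface. -/
def St_CLO : Prop := ∀ (n r : ℕ) (x : E n) (δ : E n → ℂ) (τ : E n → E r) (ψ : E n → ℝ)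
  (γ : E r → ℝ) (d s c L : ℝ), HolN δ x → s < d → 0 < c →
  (∀ᶠ z in 𝓝 x, δ z ≠ 0 → HolN τ z ∧ AnalyticAt ℝ ψ z ∧
    ∀ v, nq (hess (fun w => (ψ w : ℂ)) z) v ≤ L * ‖v‖ ^ 2) →
  (∀ t ∈ ball (0 : E r) d, AnalyticAt ℝ γ t ∧
    ∀ v, c * ‖v‖ ^ 2 ≤ nq (hess (fun w => (γ w : ℂ)) t) v) →
  (∃ᶠ a in 𝓝 x, δ a ≠ 0 ∧ ‖τ a‖ ≤ s ∧ ψ =ᶠ[𝓝 a] γ ∘ τ) →
  ∃ H : E n → E r, HolN H x ∧ ‖H x‖ ≤ s ∧ ∀ᶠ z in 𝓝 x, δ z ≠ 0 → τ z = H z ∧ ψ z = γ (H z)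

/-- The potential on the base. -/
def St_BASE : Prop := ∀ (n r : ℕ) (τ : E n → E r) (ψ : E n → ℝ) (y : E n), HolN τ y →
  Function.Surjective (fderiv ℂ τ y) → AnalyticAt ℝ ψ y →
  (∀ᶠ z in 𝓝 y, (hess (fun w => (ψ w : ℂ)) z).PosSemidef ∧ (hess (fun w => (ψ w : ℂ)) z).rank ≤ r ∧
    ∀ v, hess (fun w => (ψ w : ℂ)) z *ᵥ v = 0 → fderiv ℂ τ z v = 0 ∧
      ∑ j, dz j (fun w => (ψ w : ℂ)) z * v j = 0) →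
  ∃ (γ : E r → ℝ) (d c : ℝ), 0 < d ∧ 0 < c ∧ (ψ =ᶠ[𝓝 y] fun z => γ (τ z - τ y)) ∧
    ∀ t ∈ ball (0 : E r) d, AnalyticAt ℝ γ t ∧
      ∀ v, c * ‖v‖ ^ 2 ≤ nq (hess (fun w => (γ w : ℂ)) t) v

/-- The sub-mean value inequality for sections. -/
def St_SMV : Prop := ∀ (n : ℕ) (M : Mf n) [M.Cpt] (G : M.Fam (Mat n)) (L : M.Co) (Φ : M.Fam ℝ)
  (e : M.Ch) (c : E n) (R : ℝ), M.Met G → M.WtC L Φ → e ∈ M.C → closedBall c (2 * R) ⊆ e.target →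
  ∃ C : ℝ, 0 ≤ C ∧ ∀ (s : M.Fam ℂ) (w : M.X → ℝ) (A a t : ℝ), M.HSecC L s → M.Sm w →
    ∫ y, M.nrC (Φ + fun e z => w (e.symm z)) s y ∂M.mu G ≤ A → 0 < t → t ≤ R →
    ∀ z ∈ ball c R, (∀ z' ∈ ball z t, w (e.symm z') ≤ a) →
      M.nrC Φ s (e.symm z) * t ^ (2 * n) ≤ C * A * Real.exp a

/-- Pointwise limits of bounded families of sections. -/
def St_LIM : Prop := ∀ (n : ℕ) (M : Mf n) (L : M.Co) (Φ : M.Fam ℝ) (κ : Type) (l : Ultrafilter κ)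
  (s : κ → M.Fam ℂ) (B : ℝ), M.WtC L Φ → (∀ a, M.HSecC L (s a)) → (∀ a x, M.nrC Φ (s a) x ≤ B) →
  ∃ t, M.HSecC L t ∧ M.All fun e z => Tendsto (fun a => s a e z) l (𝓝 (t e z))

/-- Every chart lies in a standard affine piece. -/
def Aff {n : ℕ} (M : Mf n) {ι : Type} (f : M.X → ι → ℂ) : Prop :=
  ∀ e ∈ M.C, ∃ i, ∀ x ∈ e.source, f x i ≠ 0

/-- The bundle `O(1)`. -/
def St_OM : Prop := ∀ (n : ℕ) (M : Mf n) (ι : Type) [Fintype ι] (f : M.X → ι → ℂ), PN.PMap M f →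
  Aff M f → ∃ (L : M.Co) (Φ : M.Fam ℝ), M.WtC L Φ ∧
    (M.All fun e z => M.hw Φ e z = PN.fs M f e z) ∧ ∀ m : ℕ,
      (∀ i, ∃ g, M.HSecC (L.pw m) g ∧ ∀ x, M.nrC ((m : ℝ) • Φ) g x = no f m (fun x => f x i ^ m) x) ∧
      (∀ s, M.HSecC (L.pw m) s → ∃ σ, SecO M f m σ ∧ ∀ x, no f m σ x = M.nrC ((m : ℝ) • Φ) s x) ∧
      ∀ s φ, SecK M f m s → M.Wt 1 φ → ∃ s', M.HSecC ((L.pw m).tw 1) s' ∧
        M.WtC ((L.pw m).tw 1) (φ + (m : ℝ) • Φ) ∧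
        ∀ x, nk M φ f m s x = M.nrC (φ + (m : ℝ) • Φ) s' x

/-- A coordinate of the Gauss map. -/
def St_GAU : Prop := ∀ (n : ℕ) (M : Mf n) (ι : Type) [Fintype ι] (f : M.X → ι → ℂ) (x₀ : M.X),
  PN.PMap M f →
  (∀ c z F, PN.Lift M f c z F → ∀ (t : ℂ) (v : E n), fderiv ℂ F z v = t • F z → v = 0) →
  ∃ s, SecK M f (n + 1) s ∧ M.ev s x₀ ≠ 0

/-- The identity theorem for sections of `O(m)`. -/
def St_IDO : Prop := ∀ (n : ℕ) (M : Mf n) [M.Cpt] (ι : Type) [Fintype ι] (f : M.X → ι → ℂ) (m : ℕ)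
  (σ : M.X → ℂ) (x₀ : M.X), PN.PMap M f → SecO M f m σ → σ x₀ ≠ 0 →
  IsOpen {x | σ x ≠ 0} ∧ Dense {x | σ x ≠ 0}

/-- Coercivity near the centre of a box. -/
def St_E1 : Prop := ∀ (n k j : ℕ) (M : Mf n) (φ : M.Fam ℝ) (μ : Fin k → M.X → ℝ) (V : M.Cov)
  (ρ : (Fin k → ℝ) → M.X → ℝ) (x₀ : M.X) (Φ : E (k + j) × E (k + j) → ℂ) (δ c : ℝ) (O : Set M.X)
  (H : M.X → E (k + j)) (σ : E (k + j) → M.X) (ψ : E (k + j) → ℝ) (δ' c₁ : ℝ),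
  RA.Flow M j φ μ V ρ → RA.Box M φ μ x₀ Φ δ c O H σ → RA.Phh M φ ρ Φ δ O H ψ δ' c₁ →
  ∃ C₁ : ℝ, ∀ᶠ x in 𝓝 x₀, ∀ ξ, c₁ * ‖ξ‖ - C₁ ≤ ρ ξ x - RA.mu0 Φ 0 ⬝ᵥ ξ

/-- Coercivity for a positive line bundle. -/
def St_CO0 : Prop := ∀ (n k : ℕ) (M : Mf n) [M.Cpt] (G : M.Fam (Mat n)) (L : M.Co) (Φ : M.Fam ℝ)
  (η : M.Fam (Mat n)) (ρ : (Fin k → ℝ) → M.X → ℝ) (b : Fin k → ℝ) (x₀ : M.X) (c₁ C₁ C₂ : ℝ)
  (q : M.X → ℝ), M.Kae G → M.WtC L Φ → (M.All fun e z => M.hw Φ e z = G e z) →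
  (∀ m, ∃ g, M.HSecC (L.pw m) g ∧ M.ev g x₀ ≠ 0) → M.Form η → (∀ x, ρ 0 x = 0) → Mini M η ρ →
  Lip M ρ → 0 < c₁ → (∀ᶠ x in 𝓝 x₀, ∀ ξ, c₁ * ‖ξ‖ - C₁ ≤ ρ ξ x - b ⬝ᵥ ξ) → M.Sm q →
  (∀ x, 0 ≤ q x) → q x₀ ≠ 0 →
  (∀ ε, 0 < ε → M.Le 0 (C₂ • G + M.hs fun x => Real.log (q x + ε))) →
  ∃ (m : ℕ) (s : M.Fam ℂ) (c C : ℝ), 0 < c ∧ 0 < C ∧ M.HSecC (L.pw m) s ∧ M.ev s x₀ ≠ 0 ∧
    ∀ x, M.nrC ((m : ℝ) • Φ) s x ≤ C * q x ∧ (M.ev s x ≠ 0 →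
      ∀ ξ, c * ‖ξ‖ - C * (1 + |Real.log (M.nrC ((m : ℝ) • Φ) s x)|) ≤ ρ ξ x - b ⬝ᵥ ξ)

end Pool.Agent.Lib.RAG
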